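import Pool.Agent.Lib.MP_904b2a_gt.SingP
import Pool.Agent.Lib.MP_904b2a_gt.Sums

/-!
# MP_904b2a_gt, module OBS (helper68): chains of pointed simplicial sets

Degeneracies on reduced chains, the normalisation lemma (A2), multisets, the relative chains `Q`
and the chain homotopy given by bounded exponents.
-/

open scoped BigOperators

namespace Pool.Agent.Lib.MP_904b2a_gt

noncomputable section

namespace PSS

variable (K : PSS)

/-! ### Reduced chains -/

theorem ch_pt68 (n : ℕ) : K.ch n (K.pt n) = 0 := by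
  simp [ch]

theorem ch_of_ne68 {n : ℕ} (b : K.B n) : K.ch n b.1 = Finsupp.single b 1 := by
  simp [ch, b.2]

/-- Two additive maps on reduced chains are equal if they agree on simplices. -/
theorem hom_ext_ch {n : ℕ} {T : Type*} [AddCommGroup T] {f g : (K.B n →₀ ℤ) →ₗ[ℤ] T}
    (h : ∀ x, f (K.ch n x) = g (K.ch n x)) : f = g := by
  apply Finsupp.lhom_ext
  intro b c
  have := h b.1
  rw [K.ch_of_ne68 b] at this
  rw [← mul_one c, ← smul_eq_mul, ← Finsupp.smul_single, map_smul, map_smul, this]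

theorem lc_ch {n : ℕ} {T : Type*} [AddCommGroup T] (F : K.K n → T) (h0 : F (K.pt n) = 0)
    (x : K.K n) :
    Finsupp.linearCombination ℤ (fun b : K.B n => F b.1) (K.ch n x) = F x := by
  by_cases hx : x = K.pt n
  · rw [hx, ch_pt68, map_zero, h0]
  · rw [K.ch_of_ne68 ⟨x, hx⟩, Finsupp.linearCombination_single, one_smul]

theorem dZ_ch (n i : ℕ) (hi : i ≤ n + 1) (x : K.K (n + 1)) :
    K.dZ n i (K.ch (n + 1) x) = K.ch n (K.d n i x) :=
  K.lc_ch (fun x => K.ch n (K.d n i x)) (by rw [K.d_pt n i hi, ch_pt68]) x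

/-- Degeneracies on reduced chains. -/
def sZ68 (n i : ℕ) : (K.B n →₀ ℤ) →ₗ[ℤ] (K.B (n + 1) →₀ ℤ) :=
  Finsupp.linearCombination ℤ (fun b => K.ch (n + 1) (K.s n i b.1))

theorem sZ_ch (n i : ℕ) (hi : i ≤ n) (x : K.K n) :
    K.sZ68 n i (K.ch n x) = K.ch (n + 1) (K.s n i x) :=
  K.lc_ch (fun x => K.ch (n + 1) (K.s n i x)) (by rw [K.s_pt n i hi, ch_pt68]) x

theorem dZ_dZ68 (n i j : ℕ) (hij : i ≤ j) (hj : j ≤ n + 1) (x : K.B (n + 2) →₀ ℤ) :
    K.dZ n i (K.dZ (n + 1) (j + 1) x) = K.dZ n j (K.dZ (n + 1) i x) := by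
  have e : (K.dZ n i).comp (K.dZ (n + 1) (j + 1)) = (K.dZ n j).comp (K.dZ (n + 1) i) := by
    apply K.hom_ext_ch
    intro x
    rw [LinearMap.comp_apply, LinearMap.comp_apply, K.dZ_ch (n + 1) _ (by omega),
      K.dZ_ch (n + 1) _ (by omega), K.dZ_ch n _ (by omega), K.dZ_ch n _ (by omega),
      K.d_d n i j x hij hj]
  exact LinearMap.congr_fun e x

theorem sZ_sZ68 (n i j : ℕ) (hij : i ≤ j) (hj : j ≤ n) (x : K.B n →₀ ℤ) :
    K.sZ68 (n + 1) i (K.sZ68 n j x) = K.sZ68 (n + 1) (j + 1) (K.sZ68 n i x) := by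
  have e : (K.sZ68 (n + 1) i).comp (K.sZ68 n j) = (K.sZ68 (n + 1) (j + 1)).comp (K.sZ68 n i) := by
    apply K.hom_ext_ch
    intro x
    rw [LinearMap.comp_apply, LinearMap.comp_apply, K.sZ_ch n _ (by omega),
      K.sZ_ch n _ (by omega), K.sZ_ch (n + 1) _ (by omega), K.sZ_ch (n + 1) _ (by omega),
      K.s_s n i j x hij hj]
  exact LinearMap.congr_fun e x

theorem dZ_sZ_lt68 (n i j : ℕ) (hij : i ≤ j) (hj : j ≤ n) (x : K.B (n + 1) →₀ ℤ) :
    K.dZ (n + 1) i (K.sZ68 (n + 1) (j + 1) x) = K.sZ68 n j (K.dZ n i x) := by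
  have e : (K.dZ (n + 1) i).comp (K.sZ68 (n + 1) (j + 1)) = (K.sZ68 n j).comp (K.dZ n i) := by
    apply K.hom_ext_ch
    intro x
    rw [LinearMap.comp_apply, LinearMap.comp_apply, K.sZ_ch (n + 1) _ (by omega),
      K.dZ_ch n _ (by omega), K.dZ_ch (n + 1) _ (by omega), K.sZ_ch n _ (by omega),
      K.d_s_lt n i j x hij hj]
  exact LinearMap.congr_fun e x

theorem dZ_sZ_eq68 (n j : ℕ) (hj : j ≤ n) (x : K.B n →₀ ℤ) : K.dZ n j (K.sZ68 n j x) = x := by
  have e : (K.dZ n j).comp (K.sZ68 n j) = LinearMap.id := by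
    apply K.hom_ext_ch
    intro x
    rw [LinearMap.comp_apply, K.sZ_ch n _ hj, K.dZ_ch n _ (by omega), K.d_s_eq n j x hj]
    rfl
  exact LinearMap.congr_fun e x

theorem dZ_sZ_succ68 (n j : ℕ) (hj : j ≤ n) (x : K.B n →₀ ℤ) :
    K.dZ n (j + 1) (K.sZ68 n j x) = x := by
  have e : (K.dZ n (j + 1)).comp (K.sZ68 n j) = LinearMap.id := by
    apply K.hom_ext_ch
    intro x
    rw [LinearMap.comp_apply, K.sZ_ch n _ hj, K.dZ_ch n _ (by omega), K.d_s_succ n j x hj]
    rfl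
  exact LinearMap.congr_fun e x

theorem dZ_sZ_gt68 (n i j : ℕ) (hij : j < i) (hi : i ≤ n + 1) (x : K.B (n + 1) →₀ ℤ) :
    K.dZ (n + 1) (i + 1) (K.sZ68 (n + 1) j x) = K.sZ68 n j (K.dZ n i x) := by
  have e : (K.dZ (n + 1) (i + 1)).comp (K.sZ68 (n + 1) j) = (K.sZ68 n j).comp (K.dZ n i) := by
    apply K.hom_ext_ch
    intro x
    rw [LinearMap.comp_apply, LinearMap.comp_apply, K.sZ_ch (n + 1) _ (by omega),
      K.dZ_ch n _ (by omega), K.dZ_ch (n + 1) _ (by omega), K.sZ_ch n _ (by omega),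
      K.d_s_gt n i j x hij hi]
  exact LinearMap.congr_fun e x

theorem bd_apply68 (n : ℕ) (x : K.B (n + 1) →₀ ℤ) :
    K.bd n x = ∑ i ∈ Finset.range (n + 2), (-1 : ℤ) ^ i • K.dZ n i x := by
  simp [bd]

/-! ### Normalisation -/

/-- The successive projections to the normalised chains. -/
def nrm (n : ℕ) : ℕ → (K.B (n + 1) →₀ ℤ) → (K.B (n + 1) →₀ ℤ)
  | 0, x => x
  | (m + 1), x => nrm n m x - K.sZ68 n (n - m) (K.dZ n (n - m + 1) (nrm n m x))

/-- Degenerate chains. -/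
def Dg : ∀ n, AddSubgroup (K.B n →₀ ℤ)
  | 0 => ⊥
  | (n + 1) => AddSubgroup.closure {x | ∃ j, j ≤ n ∧ ∃ z, K.sZ68 n j z = x}

theorem sZ_mem_Dg (n j : ℕ) (hj : j ≤ n) (z : K.B n →₀ ℤ) : K.sZ68 n j z ∈ K.Dg (n + 1) :=
  AddSubgroup.subset_closure ⟨j, hj, z, rfl⟩

theorem nrm_add (n m : ℕ) (x y : K.B (n + 1) →₀ ℤ) :
    K.nrm n m (x + y) = K.nrm n m x + K.nrm n m y := by
  induction m with
  | zero => rfl
  | succ m ih =>
    simp only [nrm, ih, map_add]
    abel

theorem nrm_face (n : ℕ) (x : K.B (n + 1) →₀ ℤ) : ∀ m, m ≤ n + 1 → ∀ i, n + 2 ≤ i + m →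
    i ≤ n + 1 → K.dZ n i (K.nrm n m x) = 0 := by
  intro m
  induction m with
  | zero =>
    intro _ i h1 h2
    omega
  | succ m ih =>
    intro hm i h1 h2
    simp only [nrm, map_sub]
    obtain ⟨r, hr⟩ : ∃ r, n - m = r := ⟨_, rfl⟩
    rw [hr]
    rcases Nat.lt_or_ge (r + 1) i with hi | hi
    · cases n with
      | zero => omega
      | succ p =>
        obtain ⟨i', rfl⟩ : ∃ i', i = i' + 1 := ⟨i - 1, by omega⟩
        have h0 := ih (by omega) (i' + 1) (by omega) h2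
        rw [h0, K.dZ_sZ_gt68 p i' r (by omega) (by omega),
          ← K.dZ_dZ68 p (r + 1) i' (by omega) (by omega), h0, map_zero, map_zero, sub_zero]
    · obtain rfl : i = r + 1 := by omega
      rw [K.dZ_sZ_succ68 n r (by omega), sub_self]

theorem nrm_sub_mem (n m : ℕ) (hm : m ≤ n + 1) (x : K.B (n + 1) →₀ ℤ) :
    K.nrm n m x - x ∈ K.Dg (n + 1) := by
  induction m with
  | zero =>
    simp only [nrm, sub_self]
    exact zero_mem _
  | succ m ih =>
    simp only [nrm]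
    have e : K.nrm n m x - K.sZ68 n (n - m) (K.dZ n (n - m + 1) (K.nrm n m x)) - x =
        (K.nrm n m x - x) - K.sZ68 n (n - m) (K.dZ n (n - m + 1) (K.nrm n m x)) := by abel
    rw [e]
    exact sub_mem (ih (by omega)) (K.sZ_mem_Dg n (n - m) (by omega) _)

theorem nrm_of_faces (n m : ℕ) (hm : m ≤ n + 1) (x : K.B (n + 1) →₀ ℤ)
    (hx : ∀ i, 1 ≤ i → i ≤ n + 1 → K.dZ n i x = 0) : K.nrm n m x = x := by
  induction m with
  | zero => rfl
  | succ m ih =>
    simp only [nrm]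
    rw [ih (by omega), hx (n - m + 1) (by omega) (by omega), map_zero, sub_zero]

theorem nrm_zero (n m : ℕ) : K.nrm n m 0 = 0 := by
  induction m with
  | zero => rfl
  | succ m ih => simp only [nrm, ih, map_zero, sub_zero]

theorem nrm_sZ (n j : ℕ) (hj : j ≤ n) (z : K.B n →₀ ℤ) : K.nrm n (n + 1) (K.sZ68 n j z) = 0 := by
  have h1 : ∀ m, m ≤ n - j → ∃ z', K.nrm n m (K.sZ68 n j z) = K.sZ68 n j z' := by
    intro m
    induction m with
    | zero => exact fun _ => ⟨z, rfl⟩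
    | succ m ih =>
      intro hm
      obtain ⟨z', hz'⟩ := ih (by omega)
      cases n with
      | zero => omega
      | succ p =>
        obtain ⟨r, hr⟩ : ∃ r, p + 1 - m = r + 1 := ⟨p - m, by omega⟩
        refine ⟨z' - K.sZ68 p r (K.dZ p (r + 1) z'), ?_⟩
        simp only [nrm]
        rw [hz', hr, K.dZ_sZ_gt68 p (r + 1) j (by omega) (by omega), map_sub,
          K.sZ_sZ68 p j r (by omega) (by omega)]
  have h2 : K.nrm n (n - j + 1) (K.sZ68 n j z) = 0 := by
    obtain ⟨z', hz'⟩ := h1 (n - j) le_rfl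
    simp only [nrm]
    rw [hz', show n - (n - j) = j by omega, K.dZ_sZ_succ68 n j hj, sub_self]
  have h3 : ∀ m, n - j + 1 ≤ m → K.nrm n m (K.sZ68 n j z) = 0 := by
    intro m hm
    induction m, hm using Nat.le_induction with
    | base => exact h2
    | succ m _ ih => simp only [nrm, ih, map_zero, sub_zero]
  exact h3 (n + 1) (by omega)

theorem nrm_Dg (n : ℕ) (x : K.B (n + 1) →₀ ℤ) (hx : x ∈ K.Dg (n + 1)) :
    K.nrm n (n + 1) x = 0 := by
  have hneg : ∀ y, K.nrm n (n + 1) (-y) = - K.nrm n (n + 1) y := by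
    intro y
    have := K.nrm_add n (n + 1) y (-y)
    rw [add_neg_cancel, nrm_zero] at this
    exact (neg_eq_of_add_eq_zero_right this.symm).symm
  induction hx using AddSubgroup.closure_induction with
  | mem y hy =>
    obtain ⟨j, hj, z, rfl⟩ := hy
    exact K.nrm_sZ n j hj z
  | zero => exact K.nrm_zero n _
  | add y z _ _ hy hz => rw [nrm_add, hy, hz, add_zero]
  | neg y _ hy => rw [hneg, hy, neg_zero]

theorem bd_sZ_mem (n j : ℕ) (hj : j ≤ n) (z : K.B n →₀ ℤ) : K.bd n (K.sZ68 n j z) ∈ K.Dg n := by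
  classical
  rw [bd_apply68]
  have hj1 : j ∈ Finset.range (n + 2) := Finset.mem_range.mpr (by omega)
  have hj2 : j + 1 ∈ (Finset.range (n + 2)).erase j :=
    Finset.mem_erase.mpr ⟨by omega, Finset.mem_range.mpr (by omega)⟩
  rw [← Finset.add_sum_erase _ _ hj1, ← Finset.add_sum_erase _ _ hj2, K.dZ_sZ_eq68 n j hj,
    K.dZ_sZ_succ68 n j hj, ← add_assoc, pow_succ, mul_neg_one, neg_smul, add_neg_cancel, zero_add]
  refine sum_mem (fun i hi => ?_)
  rw [Finset.mem_erase, Finset.mem_erase, Finset.mem_range] at hi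
  refine zsmul_mem ?_ _
  cases n with
  | zero => omega
  | succ p =>
    rcases Nat.lt_or_ge i j with h | h
    · obtain ⟨j', rfl⟩ : ∃ j', j = j' + 1 := ⟨j - 1, by omega⟩
      rw [K.dZ_sZ_lt68 p i j' (by omega) (by omega)]
      exact K.sZ_mem_Dg p j' (by omega) _
    · obtain ⟨i', rfl⟩ : ∃ i', i = i' + 1 := ⟨i - 1, by omega⟩
      rw [K.dZ_sZ_gt68 p i' j (by omega) (by omega)]
      exact K.sZ_mem_Dg p j (by omega) _

theorem bd_Dg (n : ℕ) (x : K.B (n + 1) →₀ ℤ) (hx : x ∈ K.Dg (n + 1)) : K.bd n x ∈ K.Dg n := by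
  induction hx using AddSubgroup.closure_induction with
  | mem y hy =>
    obtain ⟨j, hj, z, rfl⟩ := hy
    exact K.bd_sZ_mem n j hj z
  | zero =>
    rw [map_zero]
    exact zero_mem _
  | add y z _ _ hy hz =>
    rw [map_add]
    exact add_mem hy hz
  | neg y _ hy =>
    rw [map_neg]
    exact neg_mem hy

/-- Normalisation (A2): a chain with trivial faces which is a boundary is the face `0` of a
chain whose other faces are trivial. -/
theorem exists_normalised (p : ℕ) (z : K.B (p + 1) →₀ ℤ)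
    (hz : ∀ i, i ≤ p + 1 → K.dZ p i z = 0) (w : K.B (p + 2) →₀ ℤ) (hw : K.bd (p + 1) w = z) :
    ∃ w' : K.B (p + 2) →₀ ℤ, K.dZ (p + 1) 0 w' = z ∧
      ∀ i, 1 ≤ i → i ≤ p + 2 → K.dZ (p + 1) i w' = 0 := by
  set w' := K.nrm (p + 1) (p + 2) w with hw'
  have h1 : ∀ i, 1 ≤ i → i ≤ p + 2 → K.dZ (p + 1) i w' = 0 := fun i h1 h2 =>
    K.nrm_face (p + 1) w (p + 2) le_rfl i (by omega) h2
  refine ⟨w', ?_, h1⟩
  have h2 : K.bd (p + 1) w' = K.dZ (p + 1) 0 w' := by
    rw [bd_apply68, Finset.sum_range_succ', Finset.sum_eq_zero, zero_add, pow_zero, one_smul]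
    intro i hi
    rw [h1 (i + 1) (by omega) (by have := Finset.mem_range.mp hi; omega), smul_zero]
  have h3 : K.dZ (p + 1) 0 w' - z ∈ K.Dg (p + 1) := by
    rw [← h2, ← hw, ← map_sub]
    exact K.bd_Dg (p + 1) _ (K.nrm_sub_mem (p + 1) (p + 2) le_rfl w)
  have h4 := K.nrm_Dg p _ h3
  rw [K.nrm_of_faces p (p + 1) le_rfl] at h4
  · exact sub_eq_zero.mp h4
  · intro i hi hi'
    rw [map_sub, hz i hi', sub_zero, ← K.dZ_dZ68 p 0 i (by omega) hi', h1 (i + 1) (by omega)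
      (by omega), map_zero]

/-! ### Multisets -/

theorem ms_pt68 (n : ℕ) : K.ms n (K.pt n) = 0 := by
  simp [ms]

theorem ms_of_ne68 {n : ℕ} (b : K.B n) : K.ms n b.1 = Finsupp.single b 1 := by
  simp [ms, b.2]

theorem dM_ms (n i : ℕ) (hi : i ≤ n + 1) (x : K.K (n + 1)) :
    K.dM n i (K.ms (n + 1) x) = K.ms n (K.d n i x) := by
  by_cases hx : x = K.pt (n + 1)
  · rw [hx, ms_pt68, map_zero, K.d_pt n i hi, ms_pt68]
  · rw [K.ms_of_ne68 ⟨x, hx⟩]
    simp [dM]

theorem homM_ext {n : ℕ} {T : Type*} [AddCommMonoid T] {f g : K.M n →+ T}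
    (h : ∀ x, f (K.ms n x) = g (K.ms n x)) : f = g := by
  apply Finsupp.addHom_ext
  intro b c
  have := h b.1
  rw [K.ms_of_ne68 b] at this
  have e : Finsupp.single b c = c • Finsupp.single b (1 : ℕ) := by
    rw [Finsupp.smul_single, smul_eq_mul, mul_one]
  rw [e, map_nsmul, map_nsmul, this]

theorem dM_dM (n i j : ℕ) (hij : i ≤ j) (hj : j ≤ n + 1) (x : K.M (n + 2)) :
    K.dM n i (K.dM (n + 1) (j + 1) x) = K.dM n j (K.dM (n + 1) i x) := by
  have e : (K.dM n i).comp (K.dM (n + 1) (j + 1)) = (K.dM n j).comp (K.dM (n + 1) i) := by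
    apply K.homM_ext
    intro x
    rw [AddMonoidHom.comp_apply, AddMonoidHom.comp_apply, K.dM_ms (n + 1) _ (by omega),
      K.dM_ms (n + 1) _ (by omega), K.dM_ms n _ (by omega), K.dM_ms n _ (by omega),
      K.d_d n i j x hij hj]
  exact DFunLike.congr_fun e x

/-- Multisets as chains. -/
def toZ (n : ℕ) : K.M n →+ (K.B n →₀ ℤ) :=
  Finsupp.mapRange.addMonoidHom (Nat.castAddMonoidHom ℤ)

theorem toZ_injective (n : ℕ) : Function.Injective (K.toZ n) :=
  Finsupp.mapRange_injective _ (by simp) Nat.cast_injective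

theorem toZ_ms (n : ℕ) (x : K.K n) : K.toZ n (K.ms n x) = K.ch n x := by
  by_cases hx : x = K.pt n
  · rw [hx, ms_pt68, map_zero, ch_pt68]
  · rw [K.ms_of_ne68 ⟨x, hx⟩, K.ch_of_ne68 ⟨x, hx⟩]
    simp [toZ]

theorem toZ_dM (n i : ℕ) (hi : i ≤ n + 1) (m : K.M (n + 1)) :
    K.toZ n (K.dM n i m) = K.dZ n i (K.toZ (n + 1) m) := by
  have e : (K.toZ n).comp (K.dM n i) = (K.dZ n i).toAddMonoidHom.comp (K.toZ (n + 1)) := by
    apply K.homM_ext
    intro x
    rw [AddMonoidHom.comp_apply, AddMonoidHom.comp_apply, K.dM_ms n i hi, toZ_ms, toZ_ms]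
    exact (K.dZ_ch n i hi x).symm
  exact DFunLike.congr_fun e m

theorem exists_sub (n : ℕ) (w : K.B n →₀ ℤ) : ∃ a b : K.M n, w = K.toZ n a - K.toZ n b := by
  refine ⟨w.mapRange Int.toNat rfl, (-w).mapRange Int.toNat rfl, ?_⟩
  ext x
  simp only [toZ, Finsupp.mapRange.addMonoidHom_apply, Finsupp.coe_sub, Pi.sub_apply,
    Finsupp.mapRange_apply, Nat.coe_castAddMonoidHom, Finsupp.coe_neg, Pi.neg_apply]
  exact (Int.toNat_sub_toNat_neg _).symm

/-! ### Relative chains -/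

theorem chN_ms68 (n : ℕ) (x : K.K n) : K.chN n (K.ms n x) = 0 := by
  simp only [chN]
  rw [dif_neg]
  intro h
  exact h x rfl

theorem chN_of68 (n : ℕ) (m : K.NL n) : K.chN n m.1 = Finsupp.single m 1 := by
  simp [chN, m.2]

theorem bdQ_chN (n : ℕ) (m : K.M (n + 1)) :
    K.bdQ n (K.chN (n + 1) m) =
      ∑ i ∈ Finset.range (n + 2), (-1 : ℤ) ^ i • K.chN n (K.dM n i m) := by
  by_cases h : ∀ x : K.K (n + 1), m ≠ K.ms (n + 1) x
  · rw [K.chN_of68 (n + 1) ⟨m, h⟩]
    simp [bdQ]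
  · push Not at h
    obtain ⟨x, rfl⟩ := h
    rw [chN_ms68, map_zero]
    refine (Finset.sum_eq_zero (fun i hi => ?_)).symm
    rw [K.dM_ms n i (by have := Finset.mem_range.mp hi; omega), chN_ms68, smul_zero]

theorem homN_ext {n : ℕ} {T : Type*} [AddCommGroup T] {f g : (K.NL n →₀ ℤ) →ₗ[ℤ] T}
    (h : ∀ m : K.NL n, f (K.chN n m.1) = g (K.chN n m.1)) : f = g := by
  apply Finsupp.lhom_ext
  intro b c
  have := h b
  rw [K.chN_of68 n b] at this
  rw [← mul_one c, ← smul_eq_mul, ← Finsupp.smul_single, map_smul, map_smul, this]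

theorem bdQ_bdQ (n : ℕ) (x : K.NL (n + 2) →₀ ℤ) : K.bdQ n (K.bdQ (n + 1) x) = 0 := by
  have e : (K.bdQ n).comp (K.bdQ (n + 1)) = 0 := by
    apply K.homN_ext
    intro m
    rw [LinearMap.comp_apply, bdQ_chN, map_sum, LinearMap.zero_apply]
    have := face_sum (n + 1) (fun i j => K.chN n (K.dM n i (K.dM (n + 1) j m.1)))
      (fun i j hij hj => by
        rw [K.dM_dM n i j hij hj])
    rw [← this]
    refine Finset.sum_congr rfl (fun j _ => ?_)
    rw [map_smul, bdQ_chN, Finset.smul_sum]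
    refine Finset.sum_congr rfl (fun i _ => ?_)
    rw [smul_smul, ← pow_add, add_comm j i]
  exact LinearMap.congr_fun e x

/-- Bounded exponents give a chain homotopy between multiplication by `E` and zero. -/
def HU (n : ℕ) : Prop :=
  ∃ E : ℕ, 0 < E ∧ ∃ (h : (K.NL (n + 1) →₀ ℤ) →ₗ[ℤ] (K.NL (n + 2) →₀ ℤ))
    (h' : (K.NL n →₀ ℤ) →ₗ[ℤ] (K.NL (n + 1) →₀ ℤ)),
    ∀ x, K.bdQ (n + 1) (h x) + h' (K.bdQ n x) = (E : ℤ) • x

theorem BoundedExp.hu {K : PSS} (hK : K.BoundedExp) : ∀ n, K.HU n := by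
  intro n
  induction n with
  | zero =>
    obtain ⟨e₀, he₀, H0⟩ := hK.1
    obtain ⟨e₁, he₁, H1⟩ := hK.2 0
    choose f hf using fun m : K.NL 0 => H0 (Finsupp.single m 1)
    set h0 : (K.NL 0 →₀ ℤ) →ₗ[ℤ] (K.NL 1 →₀ ℤ) := Finsupp.linearCombination ℤ f with hh0
    have E0 : ∀ x, K.bdQ 0 (h0 x) = (e₀ : ℤ) • x := by
      intro x
      have : (K.bdQ 0).comp h0 = (e₀ : ℤ) • LinearMap.id := by
        apply K.homN_ext
        intro m
        rw [K.chN_of68 0 m]
        simp only [hh0, LinearMap.comp_apply, Finsupp.linearCombination_single, one_smul,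
          LinearMap.smul_apply, LinearMap.id_apply]
        exact hf m
      exact LinearMap.congr_fun this x
    choose g hg using fun m : K.NL 1 => H1 ((e₀ : ℤ) • Finsupp.single m 1 -
      h0 (K.bdQ 0 (Finsupp.single m 1))) (by rw [map_sub, map_smul, E0, sub_self])
    refine ⟨e₁ * e₀, Nat.mul_pos he₁ he₀, Finsupp.linearCombination ℤ g, (e₁ : ℤ) • h0, ?_⟩
    intro x
    have : (K.bdQ 1).comp (Finsupp.linearCombination ℤ g) + ((e₁ : ℤ) • h0).comp (K.bdQ 0) =
        ((e₁ * e₀ : ℕ) : ℤ) • LinearMap.id := by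
      apply K.homN_ext
      intro m
      rw [K.chN_of68 1 m]
      simp only [LinearMap.add_apply, LinearMap.comp_apply, Finsupp.linearCombination_single,
        one_smul, LinearMap.smul_apply, LinearMap.id_apply]
      rw [hg m, smul_sub, smul_smul, sub_add_cancel, Nat.cast_mul]
    exact LinearMap.congr_fun this x
  | succ n ih =>
    obtain ⟨E, hE, h, h', hh⟩ := ih
    obtain ⟨e, he, H⟩ := hK.2 (n + 1)
    choose g hg using fun m : K.NL (n + 2) => H ((E : ℤ) • Finsupp.single m 1 -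
      h (K.bdQ (n + 1) (Finsupp.single m 1))) (by
        rw [map_sub, map_smul]
        have := hh (K.bdQ (n + 1) (Finsupp.single m 1))
        rw [K.bdQ_bdQ n, map_zero, add_zero] at this
        rw [this, sub_self])
    refine ⟨e * E, Nat.mul_pos he hE, Finsupp.linearCombination ℤ g, (e : ℤ) • h, ?_⟩
    intro x
    have : (K.bdQ (n + 2)).comp (Finsupp.linearCombination ℤ g) +
        ((e : ℤ) • h).comp (K.bdQ (n + 1)) = ((e * E : ℕ) : ℤ) • LinearMap.id := by
      apply K.homN_ext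
      intro m
      rw [K.chN_of68 (n + 2) m]
      simp only [LinearMap.add_apply, LinearMap.comp_apply, Finsupp.linearCombination_single,
        one_smul, LinearMap.smul_apply, LinearMap.id_apply]
      rw [hg m, smul_sub, smul_smul, sub_add_cancel, Nat.cast_mul]
    exact LinearMap.congr_fun this x

end PSS

end

end Pool.Agent.Lib.MP_904b2a_gt
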