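import Pool.Agent.Lib.MP_904b2a_gt.H68.SG
import Pool.Agent.Lib.MP_904b2a_gt.H68.Ch
import Pool.Agent.Lib.MP_904b2a_gt.Interfaces

/-!
# MP_904b2a_gt, module OBS (helper68): extension to multisets and the conclusion
-/

open scoped BigOperators

namespace Pool.Agent.Lib.MP_904b2a_gt.H68

noncomputable section

open SGr

theorem ms_injective (K : PSS) (n : ℕ) : Function.Injective (K.ms n) := by
  intro x y h
  by_cases hx : x = K.pt n
  · by_cases hy : y = K.pt n
    · rw [hx, hy]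
    · rw [hx, K.ms_pt68, K.ms_of_ne68 ⟨y, hy⟩] at h
      exact absurd h.symm (by simp)
  · by_cases hy : y = K.pt n
    · rw [hy, K.ms_pt68, K.ms_of_ne68 ⟨x, hx⟩] at h
      exact absurd h (by simp)
    · rw [K.ms_of_ne68 ⟨x, hx⟩, K.ms_of_ne68 ⟨y, hy⟩] at h
      have := (Finsupp.single_left_inj (one_ne_zero)).mp h
      exact congrArg Subtype.val this

section Step

variable {K : PSS} {A : SGr}

/-- Compatibility with the faces below degree `q`. -/
def FC (K : PSS) (A : SGr) (q : ℕ) (R : ∀ n, K.M n → A.S n) : Prop :=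
  ∀ n, n < q → ∀ i, i ≤ n + 1 → ∀ m, R n (K.dM n i m) = A.d n i (R (n + 1) m)

theorem FC.compat {q : ℕ} {R : ∀ n, K.M n → A.S n} (hR : FC K A q R) (m : K.M (q + 1)) :
    A.Compat q (fun i => R q (K.dM q i m)) := by
  cases q with
  | zero => trivial
  | succ p =>
    intro i j hij hj
    rw [← hR p (by omega) i (by omega), ← hR p (by omega) j (by omega), K.dM_dM p i j hij hj]

/-- The obstruction class of a multiset. -/
def ob {q : ℕ} {R : ∀ n, K.M n → A.S n} (hR : FC K A q R) (m : K.M (q + 1)) : A.Pi q :=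
  obs (fun i => R q (K.dM q i m)) (hR.compat m)

theorem ob_cocycle [Fact A.Cen] {q : ℕ} {R : ∀ n, K.M n → A.S n} (hR : FC K A q R)
    (ρ : K.M (q + 2)) :
    ∑ j ∈ Finset.range (q + 3), (-1 : ℤ) ^ j • ob hR (K.dM (q + 1) j ρ) = 0 :=
  obs_cocycle (fun j i => R q (K.dM q i (K.dM (q + 1) j ρ))) (fun j => hR.compat _)
    (fun i j hij hj => by rw [K.dM_dM q i j hij hj])

/-- The obstruction cocycle. -/
def obL [Fact A.Cen] {q : ℕ} {R : ∀ n, K.M n → A.S n} (hR : FC K A q R) :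
    (K.NL (q + 1) →₀ ℤ) →ₗ[ℤ] A.Pi q :=
  Finsupp.linearCombination ℤ (fun m => ob hR m.1)

variable {f : ∀ n, K.K n → A.S n}

theorem ob_ms [Fact A.Cen] {q : ℕ} {R : ∀ n, K.M n → A.S n} (hR : FC K A q R) {D : ℕ}
    (hf : ∀ n i x, i ≤ n + 1 → f n (K.d n i x) = A.d n i (f (n + 1) x))
    (hD : ∀ x, R q (K.ms q x) = f q x ^ D) (x : K.K (q + 1)) : ob hR (K.ms (q + 1) x) = 0 := by
  unfold ob
  rw [obs_eq_zero]
  refine ⟨f (q + 1) x ^ D, fun i hi => ?_⟩
  rw [K.dM_ms q i hi, hD, map_pow, hf q i x hi]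

theorem obL_chN [Fact A.Cen] {q : ℕ} {R : ∀ n, K.M n → A.S n} (hR : FC K A q R) {D : ℕ}
    (hf : ∀ n i x, i ≤ n + 1 → f n (K.d n i x) = A.d n i (f (n + 1) x))
    (hD : ∀ x, R q (K.ms q x) = f q x ^ D) (m : K.M (q + 1)) :
    obL hR (K.chN (q + 1) m) = ob hR m := by
  by_cases h : ∀ x : K.K (q + 1), m ≠ K.ms (q + 1) x
  · rw [K.chN_of68 (q + 1) ⟨m, h⟩, obL, Finsupp.linearCombination_single, one_smul]
  · push Not at h
    obtain ⟨x, rfl⟩ := h
    rw [K.chN_ms68, map_zero, ob_ms hR hf hD]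

theorem obL_bdQ [Fact A.Cen] {q : ℕ} {R : ∀ n, K.M n → A.S n} (hR : FC K A q R) {D : ℕ}
    (hf : ∀ n i x, i ≤ n + 1 → f n (K.d n i x) = A.d n i (f (n + 1) x))
    (hD : ∀ x, R q (K.ms q x) = f q x ^ D) (x : K.NL (q + 2) →₀ ℤ) :
    obL hR (K.bdQ (q + 1) x) = 0 := by
  have e : (obL hR).comp (K.bdQ (q + 1)) = 0 := by
    apply K.homN_ext
    intro m
    rw [LinearMap.comp_apply, K.bdQ_chN, map_sum, LinearMap.zero_apply]
    rw [← ob_cocycle hR m.1]
    refine Finset.sum_congr rfl (fun j _ => ?_)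
    rw [map_smul, obL_chN hR hf hD]
  exact LinearMap.congr_fun e x

/-- Extension from degree `0` to degree `1`. -/
theorem step_zero (hA : A.Contr) {R : ∀ n, K.M n → A.S n} {D : ℕ}
    (hf : ∀ n i x, i ≤ n + 1 → f n (K.d n i x) = A.d n i (f (n + 1) x))
    (hD : ∀ n, n ≤ 0 → ∀ x, R n (K.ms n x) = f n x ^ D) :
    ∃ R' : ∀ n, K.M n → A.S n, FC K A 1 R' ∧ ∀ n, n ≤ 1 → ∀ x, R' n (K.ms n x) = f n x ^ D := by
  classical
  have : Fact A.Cen := ⟨hA.cen⟩
  have hR : FC K A 0 R := fun n hn => by omega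
  have hB : ∀ z : A.S 0, z ∈ A.B 0 := by
    intro z
    obtain ⟨h, h0, _, h2⟩ := hA 0 z
    refine A.mem_B.mpr ⟨h 0, fun i h1 h3 => ?_, h0⟩
    obtain rfl : i = 0 + 1 := by omega
    exact h2
  have hfill : ∀ m : K.M 1, ∃ t : A.S 1, (∀ i, i ≤ 1 → A.d 0 i t = R 0 (K.dM 0 i m)) ∧
      ∀ x, m = K.ms 1 x → t = f 1 x ^ D := by
    intro m
    by_cases h : ∃ x : K.K 1, m = K.ms 1 x
    · obtain ⟨x, rfl⟩ := h
      refine ⟨f 1 x ^ D, fun i hi => ?_, fun y hy => ?_⟩
      · rw [K.dM_ms 0 i hi, hD 0 le_rfl, map_pow, hf 0 i x hi]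
      · rw [ms_injective K 1 hy]
    · have e : ob hR m = 0 := by
        unfold ob obs
        rw [cl_eq_zero]
        exact hB _
      unfold ob at e
      rw [obs_eq_zero] at e
      obtain ⟨t, ht⟩ := e
      exact ⟨t, ht, fun x hx => absurd ⟨x, hx⟩ h⟩
  choose t ht ht' using hfill
  refine ⟨Function.update R 1 t, ?_, ?_⟩
  · intro n hn i hi m
    obtain rfl : n = 0 := by omega
    rw [Function.update_of_ne (by omega)]
    change _ = A.d 0 i (Function.update R 1 t 1 m)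
    rw [Function.update_self, ht m i hi]
  · intro n hn x
    rcases eq_or_ne n 1 with rfl | h
    · rw [Function.update_self, ht' _ x rfl]
    · rw [Function.update_of_ne h, hD n (by omega)]

/-- Extension from degree `p + 1` to degree `p + 2`. -/
theorem step_succ (hA : A.Contr) (p : ℕ) {E : ℕ}
    (h : (K.NL (p + 2) →₀ ℤ) →ₗ[ℤ] (K.NL (p + 3) →₀ ℤ))
    (h' : (K.NL (p + 1) →₀ ℤ) →ₗ[ℤ] (K.NL (p + 2) →₀ ℤ))
    (hh : ∀ x, K.bdQ (p + 2) (h x) + h' (K.bdQ (p + 1) x) = (E : ℤ) • x)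
    {R : ∀ n, K.M n → A.S n} {D : ℕ} (hR : FC K A (p + 1) R)
    (hf : ∀ n i x, i ≤ n + 1 → f n (K.d n i x) = A.d n i (f (n + 1) x))
    (hD : ∀ n, n ≤ p + 1 → ∀ x, R n (K.ms n x) = f n x ^ D) :
    ∃ R' : ∀ n, K.M n → A.S n, FC K A (p + 2) R' ∧
      ∀ n, n ≤ p + 2 → ∀ x, R' n (K.ms n x) = f n x ^ (D * E) := by
  classical
  have : Fact A.Cen := ⟨hA.cen⟩
  have hD' := hD (p + 1) le_rfl
  set u : (K.NL (p + 1) →₀ ℤ) →ₗ[ℤ] A.Pi (p + 1) := (obL hR).comp h' with hu
  have hou : ∀ m : K.M (p + 2), (E : ℤ) • ob hR m = u (K.bdQ (p + 1) (K.chN (p + 2) m)) := by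
    intro m
    have e := congrArg (obL hR) (hh (K.chN (p + 2) m))
    rw [map_add, map_smul, obL_bdQ hR hf hD', zero_add, obL_chN hR hf hD'] at e
    exact e.symm
  -- lifts
  have hL : ∀ m : K.M (p + 1), ∃ z : A.S (p + 1), ∃ hz : z ∈ A.Z (p + 1),
      cl z hz = u (K.chN (p + 1) m) ∧ ∀ x, m = K.ms (p + 1) x → z = 1 := by
    intro m
    by_cases h : ∃ x : K.K (p + 1), m = K.ms (p + 1) x
    · obtain ⟨x, rfl⟩ := h
      exact ⟨1, one_mem _, by rw [K.chN_ms68, map_zero, cl_one], fun _ _ => rfl⟩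
    · obtain ⟨z, hz, e⟩ := cl_surj (u (K.chN (p + 1) m))
      exact ⟨z, hz, e, fun x hx => absurd ⟨x, hx⟩ h⟩
  choose L hLZ hLu hL1 using hL
  set R₁ : ∀ n, K.M n → A.S n := fun n m => R n m ^ E with hR₁
  set R₂ : K.M (p + 1) → A.S (p + 1) := fun m => R (p + 1) m ^ E * (L m)⁻¹ with hR₂
  have hfill : ∀ m : K.M (p + 2), ∃ t : A.S (p + 2),
      (∀ i, i ≤ p + 2 → A.d (p + 1) i t = R₂ (K.dM (p + 1) i m)) ∧
      ∀ x, m = K.ms (p + 2) x → t = f (p + 2) x ^ (D * E) := by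
    intro m
    by_cases h : ∃ x : K.K (p + 2), m = K.ms (p + 2) x
    · obtain ⟨x, rfl⟩ := h
      refine ⟨f (p + 2) x ^ (D * E), fun i hi => ?_, fun y hy => ?_⟩
      · simp only [hR₂]
        rw [K.dM_ms (p + 1) i hi, hD', hL1 _ _ rfl, inv_one, mul_one, map_pow,
          hf (p + 1) i x hi, pow_mul]
      · rw [ms_injective K (p + 2) hy]
    · have hc₁ := (hR.compat m).pow E
      have hc₂ : ∀ i, (L (K.dM (p + 1) i m))⁻¹ ∈ A.Z (p + 1) := fun i => inv_mem (hLZ _)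
      have e : obs _ (hc₁.mul (Compat.ofZ hc₂)) = 0 := by
        rw [obs_mul hc₁ (Compat.ofZ hc₂), obs_pow (hR.compat m), obs_Z' _ hc₂]
        change E • ob hR m + _ = 0
        rw [← natCast_zsmul, hou m, K.bdQ_chN, map_sum, ← Finset.sum_add_distrib]
        refine Finset.sum_eq_zero (fun i _ => ?_)
        rw [map_smul, cl_inv (hLZ _), hLu, smul_neg, add_neg_cancel]
      rw [obs_eq_zero] at e
      obtain ⟨t, ht⟩ := e
      exact ⟨t, ht, fun x hx => absurd ⟨x, hx⟩ h⟩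
  choose t ht ht' using hfill
  refine ⟨Function.update (Function.update R₁ (p + 1) R₂) (p + 2) t, ?_, ?_⟩
  · intro n hn i hi m
    rw [Function.update_of_ne (show n ≠ p + 2 by omega)]
    rcases eq_or_ne n (p + 1) with rfl | h1
    · rw [Function.update_self]
      change _ = A.d (p + 1) i (Function.update (Function.update R₁ (p + 1) R₂) (p + 2) t
        (p + 2) m)
      rw [Function.update_self, ht m i hi]
    · rw [Function.update_of_ne h1, Function.update_of_ne (show n + 1 ≠ p + 2 by omega)]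
      rcases eq_or_ne n p with rfl | h2
      · rw [Function.update_self]
        simp only [hR₁, hR₂]
        rw [map_mul, map_pow, map_inv, A.mem_Z_succ.mp (hLZ m) i hi, inv_one, mul_one,
          hR n (by omega) i hi]
      · rw [Function.update_of_ne (show n + 1 ≠ p + 1 by omega)]
        simp only [hR₁]
        rw [map_pow, hR n (by omega) i hi]
  · intro n hn x
    rcases eq_or_ne n (p + 2) with rfl | h1
    · rw [Function.update_self, ht' _ x rfl]
    · rw [Function.update_of_ne h1]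
      rcases eq_or_ne n (p + 1) with rfl | h2
      · rw [Function.update_self]
        simp only [hR₂]
        rw [hD', hL1 _ _ rfl, inv_one, mul_one, pow_mul]
      · rw [Function.update_of_ne h2]
        simp only [hR₁]
        rw [hD n (by omega), pow_mul]

end Step

/-- A power of a simplicial map extends to multisets, compatibly with the faces, up to any given
degree. -/
theorem exists_extension (K : PSS) (hK : K.BoundedExp) : ∀ q : ℕ, ∃ D : ℕ, 0 < D ∧
    ∀ (A : SGr) (_ : A.Contr) (f : ∀ n, K.K n → A.S n),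
      (∀ n i x, i ≤ n + 1 → f n (K.d n i x) = A.d n i (f (n + 1) x)) →
      ∃ R : ∀ n, K.M n → A.S n, FC K A q R ∧
        ∀ n, n ≤ q → ∀ x, R n (K.ms n x) = f n x ^ D := by
  classical
  have base : ∀ (A : SGr) (f : ∀ n, K.K n → A.S n), ∃ R : ∀ n, K.M n → A.S n, 
      ∀ n, n ≤ 0 → ∀ x, R n (K.ms n x) = f n x ^ 1 := by
    intro A f
    refine ⟨fun n m => if h : ∃ x, m = K.ms n x then f n h.choose else 1, fun n _ x => ?_⟩
    have h : ∃ y, K.ms n x = K.ms n y := ⟨x, rfl⟩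
    simp only [dif_pos h, pow_one]
    rw [← ms_injective K n h.choose_spec]
  intro q
  induction q with
  | zero =>
    refine ⟨1, one_pos, fun A _ f _ => ?_⟩
    obtain ⟨R, hR⟩ := base A f
    exact ⟨R, fun n hn => by omega, hR⟩
  | succ q ih =>
    cases q with
    | zero =>
      refine ⟨1, one_pos, fun A hA f hf => ?_⟩
      obtain ⟨R, hR⟩ := base A f
      exact step_zero hA hf hR
    | succ p =>
      obtain ⟨D, hDpos, H⟩ := ih
      obtain ⟨E, hE, h, h', hh⟩ := hK.hu (p + 1)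
      refine ⟨D * E, Nat.mul_pos hDpos hE, fun A hA f hf => ?_⟩
      obtain ⟨R, hR, hD⟩ := H A hA f hf
      exact step_succ hA p h h' hh hR hf hD

/-- Deformation of multisets. -/
theorem contrM (K : PSS) (hK : K.Contr) (j : ℕ) (y : K.M j) : ∃ v : ℕ → K.M (j + 1),
    K.dM j 0 (v 0) = y ∧ (∀ i, 1 ≤ i → i ≤ j → K.dM j i (v i) = K.dM j i (v (i - 1))) ∧
      K.dM j (j + 1) (v j) = 0 := by
  induction y using Finsupp.induction_linear with
  | zero => exact ⟨fun _ => 0, map_zero _, fun i _ _ => rfl, map_zero _⟩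
  | add a b ha hb =>
    obtain ⟨v, h1, h2, h3⟩ := ha
    obtain ⟨w, h4, h5, h6⟩ := hb
    refine ⟨fun i => v i + w i, ?_, fun i hi hi' => ?_, ?_⟩
    · rw [map_add, h1, h4]
    · rw [map_add, map_add, h2 i hi hi', h5 i hi hi']
    · rw [map_add, h3, h6, add_zero]
  | single b c =>
    obtain ⟨v, h1, h2, h3⟩ := hK j b.1
    have e : Finsupp.single b c = c • K.ms j b.1 := by
      rw [K.ms_of_ne68 b, Finsupp.smul_single, smul_eq_mul, mul_one]
    refine ⟨fun i => c • K.ms (j + 1) (v i), ?_, fun i hi hi' => ?_, ?_⟩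
    · rw [map_nsmul, K.dM_ms j 0 (by omega), h1, e]
    · rw [map_nsmul, map_nsmul, K.dM_ms j i (by omega), K.dM_ms j i (by omega), h2 i hi hi']
    · rw [map_nsmul, K.dM_ms j (j + 1) (by omega), h3, K.ms_pt68, smul_zero]

/-- The conclusion for simplicial groups. -/
theorem obs_main (K : PSS) (hK : K.BoundedExp) (hC : K.Contr) (k : ℕ) : ∃ D : ℕ, 0 < D ∧
    ∀ (A : SGr) (_ : A.Contr) (f : ∀ n, K.K n → A.S n),
      (∀ n i x, i ≤ n + 1 → f n (K.d n i x) = A.d n i (f (n + 1) x)) →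
      (∀ n, f n (K.pt n) = 1) →
      ∀ σ : K.K (k + 1), (∀ i, i ≤ k + 1 → K.d k i σ = K.pt k) →
        (∃ w, K.bd (k + 1) w = K.ch (k + 1) σ) → f (k + 1) σ ^ D ∈ A.B (k + 1) := by
  obtain ⟨D, hDpos, H⟩ := exists_extension K hK (k + 2)
  refine ⟨D, hDpos, fun A hA f hf hpt σ hσ hw => ?_⟩
  have : Fact A.Cen := ⟨hA.cen⟩
  obtain ⟨R, hR, hRD⟩ := H A hA f hf
  set θ : K.M (k + 1) → A.S (k + 1) := fun y => R (k + 1) (K.ms (k + 1) σ + y) *
    (R (k + 1) y)⁻¹ with hθ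
  have hθZ : ∀ y, θ y ∈ A.Z (k + 1) := by
    intro y
    rw [mem_Z_succ]
    intro i hi
    simp only [hθ]
    rw [map_mul, map_inv, ← hR k (by omega) i hi, ← hR k (by omega) i hi, map_add,
      K.dM_ms k i hi, hσ i hi, K.ms_pt68, zero_add, mul_inv_cancel]
  have step : ∀ (v : K.M (k + 2)) (i : ℕ), i ≤ k + 1 →
      cl (θ (K.dM (k + 1) i v)) (hθZ _) = cl (θ (K.dM (k + 1) (i + 1) v)) (hθZ _) := by
    intro v i hi
    apply cl_eq
    have hface : ∀ j, j ≤ k + 2 → A.d (k + 1) j (R (k + 2) (K.ms (k + 2) (K.s (k + 1) i σ) + v) *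
        (R (k + 2) v)⁻¹) = R (k + 1) (K.ms (k + 1) (K.d (k + 1) j (K.s (k + 1) i σ)) +
          K.dM (k + 1) j v) * (R (k + 1) (K.dM (k + 1) j v))⁻¹ := by
      intro j hj
      rw [map_mul, map_inv, ← hR (k + 1) (by omega) j hj, ← hR (k + 1) (by omega) j hj, map_add,
        K.dM_ms (k + 1) j hj]
    refine A.mem_B_of_two (hθZ _) (hθZ _) i hi
      (R (k + 2) (K.ms (k + 2) (K.s (k + 1) i σ) + v) * (R (k + 2) v)⁻¹) ?_ ?_ ?_
    · rw [hface i (by omega), K.d_s_eq (k + 1) i σ hi]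
    · rw [hface (i + 1) (by omega), K.d_s_succ (k + 1) i σ hi]
    · intro j hj h1 h2
      rw [hface j hj]
      have e : K.d (k + 1) j (K.s (k + 1) i σ) = K.pt (k + 1) := by
        rcases Nat.lt_or_ge j i with h | h
        · obtain ⟨i', rfl⟩ : ∃ i', i = i' + 1 := ⟨i - 1, by omega⟩
          rw [K.d_s_lt k j i' σ (by omega) (by omega), hσ j (by omega), K.s_pt k i' (by omega)]
        · obtain ⟨j', rfl⟩ : ∃ j', j = j' + 1 := ⟨j - 1, by omega⟩
          rw [K.d_s_gt k j' i σ (by omega) (by omega), hσ j' (by omega), K.s_pt k i (by omega)]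
      rw [e, K.ms_pt68, zero_add, mul_inv_cancel]
  have const : ∀ y, cl (θ y) (hθZ y) = cl (θ 0) (hθZ 0) := by
    intro y
    obtain ⟨v, h0, h1, h2⟩ := contrM K hC (k + 1) y
    have all : ∀ m, m ≤ k + 1 → cl (θ (K.dM (k + 1) (k + 1 - m) (v (k + 1 - m)))) (hθZ _) =
        cl (θ 0) (hθZ 0) := by
      intro m
      induction m with
      | zero =>
        intro _
        rw [step _ _ (by omega)]
        apply cl_congr
        simp only [Nat.sub_zero]
        rw [h2]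
      | succ m ih =>
        intro hm
        rw [step _ _ (by omega), ← ih (by omega)]
        apply cl_congr
        rw [h1 (k + 1 - m) (by omega) (by omega)]
        rw [show k + 1 - (m + 1) + 1 = k + 1 - m by omega,
          show k + 1 - (m + 1) = k + 1 - m - 1 by omega]
    have := all (k + 1) le_rfl
    rw [← this]
    apply cl_congr
    rw [Nat.sub_self, h0]
  -- the chain
  obtain ⟨w, hw⟩ := hw
  obtain ⟨w', hw0, hwi⟩ := K.exists_normalised k (K.ch (k + 1) σ) (fun i hi => by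
    rw [K.dZ_ch k i hi, hσ i hi, K.ch_pt68]) w hw
  obtain ⟨a, b, hab⟩ := K.exists_sub (k + 2) w'
  have hface : ∀ i, 1 ≤ i → i ≤ k + 2 → K.dM (k + 1) i a = K.dM (k + 1) i b := by
    intro i h1 h2
    apply K.toZ_injective (k + 1)
    rw [K.toZ_dM (k + 1) i h2, K.toZ_dM (k + 1) i h2, ← sub_eq_zero, ← map_sub, ← hab,
      hwi i h1 h2]
  have hface0 : K.dM (k + 1) 0 a = K.ms (k + 1) σ + K.dM (k + 1) 0 b := by
    apply K.toZ_injective (k + 1)
    rw [map_add, K.toZ_dM (k + 1) 0 (by omega), K.toZ_dM (k + 1) 0 (by omega), K.toZ_ms,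
      ← hw0, ← map_add, hab, sub_add_cancel]
  have hB : θ (K.dM (k + 1) 0 b) ∈ A.B (k + 1) := by
    refine A.mem_B.mpr ⟨R (k + 2) a * (R (k + 2) b)⁻¹, fun i h1 h2 => ?_, ?_⟩
    · rw [map_mul, map_inv, ← hR (k + 1) (by omega) i h2, ← hR (k + 1) (by omega) i h2,
        hface i h1 h2, mul_inv_cancel]
    · rw [map_mul, map_inv, ← hR (k + 1) (by omega) 0 (by omega),
        ← hR (k + 1) (by omega) 0 (by omega), hface0]
  have h0 : cl (θ 0) (hθZ 0) = 0 := by
    rw [← const (K.dM (k + 1) 0 b), cl_eq_zero]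
    exact hB
  rw [cl_eq_zero] at h0
  have e : θ 0 = f (k + 1) σ ^ D := by
    simp only [hθ]
    rw [add_zero, hRD (k + 1) (by omega), ← K.ms_pt68 (k + 1), hRD (k + 1) (by omega),
      hpt, one_pow, inv_one, mul_one]
  rwa [e] at h0

end

end Pool.Agent.Lib.MP_904b2a_gt.H68
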