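import Pool.Agent.Lib.MP_904b2a_gt.Interfaces

/-!
# MP_904b2a_gt, module OBS (helper68): the prism decomposition
-/

open scoped BigOperators

namespace Pool.Agent.Lib.MP_904b2a_gt

noncomputable section

/-- The map of vertices `{0,…,q+1} → {0,1}` with `k ↦ 0` if and only if `k ≤ i`. -/
def cutv (q i : ℕ) : Fin (q + 1 + 1) → Fin (1 + 1) := fun k => if (k : ℕ) ≤ i then 0 else 1

theorem cutv_fv_same (q i : ℕ) (_ : i ≤ q + 1) :
    cutv q i ∘ fv q i = fun k : Fin (q + 1) => if (k : ℕ) < i then 0 else 1 := by
  funext k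
  simp only [Function.comp, cutv, fv_val]
  split_ifs <;> first | rfl | (exfalso; omega)

theorem cutv_fv_pred (q i : ℕ) (_ : 1 ≤ i) (_ : i ≤ q + 1) :
    cutv q (i - 1) ∘ fv q i = fun k : Fin (q + 1) => if (k : ℕ) < i then 0 else 1 := by
  funext k
  simp only [Function.comp, cutv, fv_val]
  split_ifs <;> first | rfl | (exfalso; omega)

/-- The time coordinate. -/
def tm : C(Simp 1, unitInterval) :=
  ⟨stdSimplexHomeomorphUnitInterval, stdSimplexHomeomorphUnitInterval.continuous⟩

theorem tm_const (q : ℕ) (x : Simp q) (a : Fin (1 + 1)) :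
    tm (smap (fun _ : Fin (q + 1) => a) x) = if a = 0 then 0 else 1 := by
  have h : (smap (fun _ : Fin (q + 1) => a) x : Simp 1) = stdSimplex.vertex a := by
    apply stdSimplex.ext
    funext b
    change FunOnFinite.linearMap ℝ ℝ (fun _ : Fin (q + 1) => a) x b = _
    rw [FunOnFinite.linearMap_apply_apply, stdSimplex.vertex_coe]
    rcases eq_or_ne a b with rfl | hab
    · simp
    · rw [Pi.single_eq_of_ne (Ne.symm hab), Finset.sum_eq_zero]
      intro c hc
      exact absurd (Finset.mem_filter.mp hc).2 hab
  rw [h]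
  split_ifs with ha
  · subst ha
    rfl
  · obtain rfl : a = 1 := by
      have := a.2
      apply Fin.ext
      have h0 : (a : ℕ) ≠ 0 := fun h => ha (Fin.ext h)
      change (a : ℕ) = 1
      omega
    rfl

/-- The simplices of the prism. -/
def prism68 {X : Type} [TopologicalSpace X] {q : ℕ} (H : C(unitInterval × Simp q, X)) (i : ℕ) :
    C(Simp (q + 1), X) :=
  H.comp ((tm.comp (smap (cutv q i))).prodMk (smap (dv q i)))

theorem prism68_face {X : Type} [TopologicalSpace X] {q : ℕ} (H : C(unitInterval × Simp q, X))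
    (i j : ℕ) (c : Fin (q + 1) → Fin (1 + 1)) (hc : cutv q i ∘ fv q j = c)
    (hd : dv q i ∘ fv q j = id) (x : Simp q) :
    (prism68 H i).comp (smap (fv q j)) x = H (tm (smap c x), x) := by
  have e1 : smap (cutv q i) (smap (fv q j) x) = smap c x := by
    rw [← hc, ← smap_comp]
    rfl
  have e2 : smap (dv q i) (smap (fv q j) x) = x := by
    have := DFunLike.congr_fun (smap_comp (dv q i) (fv q j)) x
    rw [hd, smap_id] at this
    exact this
  change H (tm (smap (cutv q i) (smap (fv q j) x)), smap (dv q i) (smap (fv q j) x)) = _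
  rw [e1, e2]

theorem exists_homotopy_const {X : Type} [TopologicalSpace X] [PathConnectedSpace X] (x₀ : X)
    {q : ℕ} (g : C(Simp q, X)) :
    ∃ H : C(unitInterval × Simp q, X), (∀ x, H (0, x) = x₀) ∧ ∀ x, H (1, x) = g x := by
  have hc : ContractibleSpace (Simp q) :=
    (convex_stdSimplex ℝ (Fin (q + 1))).contractibleSpace
      ⟨_, single_mem_stdSimplex ℝ (0 : Fin (q + 1))⟩
  obtain ⟨p, hp⟩ := id_nullhomotopic (Simp q)
  have h1 : ((ContinuousMap.const (Simp q) (g p))).Homotopic g := by
    have := ContinuousMap.Homotopic.comp (ContinuousMap.Homotopic.refl g) hp.symm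
    simpa using this
  have h2 : (ContinuousMap.const (Simp q) x₀).Homotopic (ContinuousMap.const (Simp q) (g p)) :=
    ContinuousMap.homotopic_const_iff.mpr (PathConnectedSpace.joined x₀ (g p))
  obtain ⟨F⟩ := h2.trans h1
  exact ⟨F.toContinuousMap, fun x => F.apply_zero x, fun x => F.apply_one x⟩

/-- The pointed singular complex of a path connected space is contractible in the sense of
`PSS.Contr`. -/
theorem singP_contr (X : Type) [TopologicalSpace X] [PathConnectedSpace X] (x₀ : X) :
    (singP X x₀).Contr := by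
  intro q g
  obtain ⟨H, h0, h1⟩ := exists_homotopy_const x₀ (g : C(Simp q, X))
  refine ⟨fun i => prism68 H i, ?_, ?_, ?_⟩
  · apply ContinuousMap.ext
    intro x
    refine (prism68_face H 0 0 (fun _ => 1) ?_ (dv_fv_eq q 0 (by omega)) x).trans ?_
    · rw [cutv_fv_same q 0 (by omega)]
      funext k
      simp
    · rw [tm_const, if_neg (by decide), h1]
  · intro i hi hi'
    apply ContinuousMap.ext
    intro x
    refine (prism68_face H i i _ (cutv_fv_same q i (by omega)) (dv_fv_eq q i hi') x).trans ?_
    refine ((prism68_face H (i - 1) i _ (cutv_fv_pred q i hi (by omega)) ?_ x)).symm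
    have := dv_fv_succ q (i - 1) (by omega)
    rwa [Nat.sub_add_cancel hi] at this
  · apply ContinuousMap.ext
    intro x
    refine (prism68_face H q (q + 1) (fun _ => 0) ?_ (dv_fv_succ q q le_rfl) x).trans ?_
    · have := cutv_fv_pred q (q + 1) (by omega) le_rfl
      rw [Nat.add_sub_cancel] at this
      rw [this]
      funext k
      exact if_pos k.2
    · rw [tm_const, if_pos rfl, h0]
      rfl

end

end Pool.Agent.Lib.MP_904b2a_gt
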