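import Pool.Agent.Lib.MP_904b2a_gt.H68.Ext
import Pool.Agent.Lib.MP_904b2a_gt.H68.Prism

/-!
# MP_904b2a_gt, module OBS (helper68): the main statement
-/

open scoped BigOperators

namespace Pool.Agent.Lib.MP_904b2a_gt.H68

noncomputable section

variable (G : Type) [Group G] [TopologicalSpace G] [IsTopologicalGroup G]

/-- The singular simplicial group of a topological group. -/
def singG : SGr where
  S n := C(Simp n, G)
  grp _ := inferInstance
  d n i := ContinuousMap.compMonoidHom' (smap (fv n i))
  s n i := ContinuousMap.compMonoidHom' (smap (dv n i))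
  d_d n i j x hij hj := (singP G 1).d_d n i j x hij hj
  d_s_lt n i j x hij hj := (singP G 1).d_s_lt n i j x hij hj
  d_s_eq n j x hj := (singP G 1).d_s_eq n j x hj
  d_s_succ n j x hj := (singP G 1).d_s_succ n j x hj
  d_s_gt n i j x hij hi := (singP G 1).d_s_gt n i j x hij hi

theorem singG_contr [PathConnectedSpace G] : (singG G).Contr := fun q g =>
  singP_contr G (1 : G) q g

/-- Module OBS. -/
theorem obsStatement : ObsStatement := by
  intro K hK hC k
  obtain ⟨D, hD, H⟩ := obs_main K hK hC k
  refine ⟨D, hD, ?_⟩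
  intro G _ _ _ _ f hf _ hpt σ hσ hw
  have e := H (singG G) (singG_contr G) f hf hpt σ hσ hw
  obtain ⟨u, h1, h2⟩ := (SGr.mem_B (singG G)).mp e
  exact ⟨u, h2, fun i hi hi' => h1 i hi hi'⟩

end

end Pool.Agent.Lib.MP_904b2a_gt.H68
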