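import Pool.Agent.Lib.MP_904b2a_gt.SingP

/-!
# MP_904b2a_gt, module OBS (helper68): simplicial groups and obstruction classes
-/

open scoped BigOperators

namespace Pool.Agent.Lib.MP_904b2a_gt.H68

noncomputable section

/-- A simplicial group (structure maps indexed by natural numbers). -/
structure SGr where
  S : ℕ → Type
  grp : ∀ n, Group (S n)
  d : ∀ n, ℕ → (S (n + 1) →* S n)
  s : ∀ n, ℕ → (S n →* S (n + 1))
  d_d : ∀ n i j (x : S (n + 2)), i ≤ j → j ≤ n + 1 →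
    d n i (d (n + 1) (j + 1) x) = d n j (d (n + 1) i x)
  d_s_lt : ∀ n i j (x : S (n + 1)), i ≤ j → j ≤ n →
    d (n + 1) i (s (n + 1) (j + 1) x) = s n j (d n i x)
  d_s_eq : ∀ n j (x : S n), j ≤ n → d n j (s n j x) = x
  d_s_succ : ∀ n j (x : S n), j ≤ n → d n (j + 1) (s n j x) = x
  d_s_gt : ∀ n i j (x : S (n + 1)), j < i → i ≤ n + 1 →
    d (n + 1) (i + 1) (s (n + 1) j x) = s n j (d n i x)

namespace SGr

variable (A : SGr)

instance (n : ℕ) : Group (A.S n) := A.grp n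

/-- Horn filling (Moore): the face `0` is missing. -/
theorem horn_succ (p : ℕ) (x : ℕ → A.S (p + 1))
    (hx : ∀ i j, 1 ≤ i → i ≤ j → j ≤ p + 1 → A.d p i (x (j + 1)) = A.d p j (x i)) :
    ∃ t : A.S (p + 2), ∀ i, 1 ≤ i → i ≤ p + 2 → A.d (p + 1) i t = x i := by
  have key : ∀ m, m ≤ p + 2 → ∃ t : A.S (p + 2), ∀ i, 1 ≤ i → p + 2 < i + m → i ≤ p + 2 →
      A.d (p + 1) i t = x i := by
    intro m
    induction m with
    | zero =>
      intro _
      refine ⟨1, fun i h1 h2 h3 => ?_⟩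
      omega
    | succ m ih =>
      intro hm
      obtain ⟨t, ht⟩ := ih (by omega)
      obtain ⟨r, hr⟩ : ∃ r, r + 1 + m = p + 2 := ⟨p + 1 - m, by omega⟩
      -- fix the face `r + 1`
      refine ⟨A.s (p + 1) r (x (r + 1) * (A.d (p + 1) (r + 1) t)⁻¹) * t, fun i h1 h2 h3 => ?_⟩
      rcases Nat.lt_or_ge (r + 1) i with hi | hi
      · obtain ⟨i', rfl⟩ : ∃ i', i = i' + 1 := ⟨i - 1, by omega⟩
        rw [map_mul, ht (i' + 1) h1 (by omega) h3,
          A.d_s_gt p i' r _ (by omega) (by omega), map_mul, map_inv,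
          ← A.d_d p (r + 1) i' t (by omega) (by omega), ht (i' + 1) h1 (by omega) h3,
          hx (r + 1) i' (by omega) (by omega) (by omega), mul_inv_cancel, map_one, one_mul]
      · obtain rfl : i = r + 1 := by omega
        rw [map_mul, A.d_s_succ (p + 1) r _ (by omega), inv_mul_cancel_right]
  obtain ⟨t, ht⟩ := key (p + 2) le_rfl
  exact ⟨t, fun i h1 h2 => ht i h1 (by omega) h2⟩

/-- The compatibility of faces (empty condition in degree `0`). -/
def Compat : ∀ q, (ℕ → A.S q) → Prop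
  | 0, _ => True
  | (p + 1), x => ∀ i j, i ≤ j → j ≤ p + 1 → A.d p i (x (j + 1)) = A.d p j (x i)

theorem horn (q : ℕ) (x : ℕ → A.S q) (hx : A.Compat q x) :
    ∃ t : A.S (q + 1), ∀ i, 1 ≤ i → i ≤ q + 1 → A.d q i t = x i := by
  cases q with
  | zero =>
    refine ⟨A.s 0 0 (x 1), fun i h1 h2 => ?_⟩
    obtain rfl : i = 0 + 1 := by omega
    exact A.d_s_succ 0 0 _ le_rfl
  | succ p => exact A.horn_succ p x (fun i j _ h2 h3 => hx i j h2 h3)

/-- The elements with trivial faces. -/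
def Z : ∀ q, Subgroup (A.S q)
  | 0 => ⊤
  | (p + 1) => ⨅ i ∈ Finset.range (p + 2), (A.d p i).ker

theorem mem_Z_succ {p : ℕ} {z : A.S (p + 1)} :
    z ∈ A.Z (p + 1) ↔ ∀ i, i ≤ p + 1 → A.d p i z = 1 := by
  simp only [Z, Subgroup.mem_iInf, Finset.mem_range, MonoidHom.mem_ker]
  exact ⟨fun h i hi => h i (by omega), fun h i hi => h i (by omega)⟩

/-- The faces `0` of the elements whose other faces are trivial. -/
def B (q : ℕ) : Subgroup (A.S q) :=
  (⨅ i ∈ Finset.Icc 1 (q + 1), (A.d q i).ker).map (A.d q 0)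

theorem mem_B {q : ℕ} {z : A.S q} :
    z ∈ A.B q ↔ ∃ u : A.S (q + 1), (∀ i, 1 ≤ i → i ≤ q + 1 → A.d q i u = 1) ∧ A.d q 0 u = z := by
  simp only [B, Subgroup.mem_map, Subgroup.mem_iInf, Finset.mem_Icc, MonoidHom.mem_ker]
  constructor
  · rintro ⟨u, h1, h2⟩
    exact ⟨u, fun i a b => h1 i ⟨a, b⟩, h2⟩
  · rintro ⟨u, h1, h2⟩
    exact ⟨u, fun i hi => h1 i hi.1 hi.2, h2⟩

theorem B_le_Z (q : ℕ) : A.B q ≤ A.Z q := by
  intro z hz
  obtain ⟨u, h1, rfl⟩ := A.mem_B.mp hz
  cases q with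
  | zero => trivial
  | succ p =>
    rw [mem_Z_succ]
    intro i hi
    rw [← A.d_d p 0 i u (by omega) hi, h1 (i + 1) (by omega) (by omega), map_one]

instance B_normal (q : ℕ) : (A.B q).Normal := by
  constructor
  intro z hz g
  obtain ⟨u, h1, rfl⟩ := A.mem_B.mp hz
  refine A.mem_B.mpr ⟨A.s q 0 g * u * (A.s q 0 g)⁻¹, fun i hi hi' => ?_, ?_⟩
  · rw [map_mul, map_mul, h1 i hi hi', mul_one, map_inv, mul_inv_cancel]
  · rw [map_mul, map_mul, map_inv, A.d_s_eq q 0 g (by omega)]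

/-- The nontrivial face may be at any place. -/
theorem mem_B_of_face {q : ℕ} {z : A.S q} (hz : z ∈ A.Z q) :
    ∀ i, i ≤ q + 1 → ∀ v : A.S (q + 1), A.d q i v = z →
      (∀ j, j ≤ q + 1 → j ≠ i → A.d q j v = 1) → z ∈ A.B q := by
  have hs : ∀ i, i ≤ q → ∀ j, j ≤ q + 1 → j ≠ i → j ≠ i + 1 → A.d q j (A.s q i z) = 1 := by
    intro i hi j hj h1 h2
    cases q with
    | zero => omega
    | succ p =>
      rw [mem_Z_succ] at hz
      rcases Nat.lt_or_ge j i with h | h
      · obtain ⟨i', rfl⟩ : ∃ i', i = i' + 1 := ⟨i - 1, by omega⟩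
        rw [A.d_s_lt p j i' z (by omega) (by omega), hz j (by omega), map_one]
      · obtain ⟨j', rfl⟩ : ∃ j', j = j' + 1 := ⟨j - 1, by omega⟩
        rw [A.d_s_gt p j' i z (by omega) (by omega), hz j' (by omega), map_one]
  intro i
  induction i with
  | zero =>
    intro _ v h1 h2
    exact A.mem_B.mpr ⟨v, fun j hj hj' => h2 j hj' (by omega), h1⟩
  | succ i ih =>
    intro hi v h1 h2
    refine ih (by omega) (A.s q i z * v⁻¹) ?_ ?_
    · rw [map_mul, map_inv, A.d_s_eq q i z (by omega), h2 i (by omega) (by omega), inv_one,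
        mul_one]
    · intro j hj hji
      rw [map_mul, map_inv]
      rcases eq_or_ne j (i + 1) with rfl | h
      · rw [A.d_s_succ q i z (by omega), h1, mul_inv_cancel]
      · rw [hs i (by omega) j hj hji h, h2 j hj h, inv_one, mul_one]

theorem s_face_one {q : ℕ} {z : A.S q} (hz : z ∈ A.Z q) (i : ℕ) (hi : i ≤ q) (j : ℕ)
    (hj : j ≤ q + 1) (h1 : j ≠ i) (h2 : j ≠ i + 1) : A.d q j (A.s q i z) = 1 := by
  cases q with
  | zero => omega
  | succ p =>
    rw [mem_Z_succ] at hz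
    rcases Nat.lt_or_ge j i with h | h
    · obtain ⟨i', rfl⟩ : ∃ i', i = i' + 1 := ⟨i - 1, by omega⟩
      rw [A.d_s_lt p j i' z (by omega) (by omega), hz j (by omega), map_one]
    · obtain ⟨j', rfl⟩ : ∃ j', j = j' + 1 := ⟨j - 1, by omega⟩
      rw [A.d_s_gt p j' i z (by omega) (by omega), hz j' (by omega), map_one]

/-- Two consecutive nontrivial faces are congruent. -/
theorem mem_B_of_two {q : ℕ} {a b : A.S q} (ha : a ∈ A.Z q) (hb : b ∈ A.Z q) (i : ℕ)
    (hi : i ≤ q) (v : A.S (q + 1)) (h1 : A.d q i v = a) (h2 : A.d q (i + 1) v = b)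
    (h3 : ∀ j, j ≤ q + 1 → j ≠ i → j ≠ i + 1 → A.d q j v = 1) : a * b⁻¹ ∈ A.B q := by
  refine A.mem_B_of_face (mul_mem ha (inv_mem hb)) i (by omega) (v * (A.s q i b)⁻¹) ?_ ?_
  · rw [map_mul, map_inv, h1, A.d_s_eq q i b hi]
  · intro j hj hji
    rw [map_mul, map_inv]
    rcases eq_or_ne j (i + 1) with rfl | h
    · rw [A.d_s_succ q i b hi, h2, mul_inv_cancel]
    · rw [A.s_face_one hb i hi j hj hji h, h3 j hj hji h, inv_one, mul_one]

/-- Every simplex can be deformed to `1` (prism decomposition). -/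
def Contr : Prop :=
  ∀ (q : ℕ) (g : A.S q), ∃ h : ℕ → A.S (q + 1),
    A.d q 0 (h 0) = g ∧ (∀ i, 1 ≤ i → i ≤ q → A.d q i (h i) = A.d q i (h (i - 1))) ∧
      A.d q (q + 1) (h q) = 1

/-- The commutators of arbitrary elements with elements of `Z` are in `B`. -/
def Cen : Prop := ∀ (q : ℕ) (g z : A.S q), z ∈ A.Z q → g * z * g⁻¹ * z⁻¹ ∈ A.B q

theorem conj_mem_Z {q : ℕ} {z : A.S q} (hz : z ∈ A.Z q) (g : A.S q) : g * z * g⁻¹ ∈ A.Z q := by
  cases q with
  | zero => trivial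
  | succ p =>
    rw [mem_Z_succ] at hz ⊢
    intro i hi
    rw [map_mul, map_mul, hz i hi, mul_one, map_inv, mul_inv_cancel]

theorem Contr.cen (hA : A.Contr) : A.Cen := by
  intro q g z hz
  obtain ⟨h, h0, h1, h2⟩ := hA q g
  have hmem : ∀ g : A.S q, g * z * g⁻¹ * z⁻¹ ∈ A.Z q := fun g =>
    mul_mem (A.conj_mem_Z hz g) (inv_mem hz)
  have step : ∀ i, i ≤ q → (A.d q i (h i) * z * (A.d q i (h i))⁻¹ * z⁻¹) *
      (A.d q (i + 1) (h i) * z * (A.d q (i + 1) (h i))⁻¹ * z⁻¹)⁻¹ ∈ A.B q := by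
    intro i hi
    refine A.mem_B_of_two (hmem _) (hmem _) i hi
      (h i * A.s q i z * (h i)⁻¹ * (A.s q i z)⁻¹) ?_ ?_ ?_
    · simp only [map_mul, map_inv, A.d_s_eq q i z hi]
    · simp only [map_mul, map_inv, A.d_s_succ q i z hi]
    · intro j hj hj1 hj2
      simp only [map_mul, map_inv, A.s_face_one hz i hi j hj hj1 hj2]
      simp
  have all : ∀ m, m ≤ q → A.d q (q - m) (h (q - m)) * z * (A.d q (q - m) (h (q - m)))⁻¹ * z⁻¹
      ∈ A.B q := by
    intro m
    induction m with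
    | zero =>
      intro _
      have e := step q le_rfl
      rw [h2] at e
      simpa using e
    | succ m ih =>
      intro hm
      have e := step (q - (m + 1)) (by omega)
      have e2 : q - (m + 1) + 1 = q - m := by omega
      have e3 : A.d q (q - (m + 1) + 1) (h (q - (m + 1))) = A.d q (q - m) (h (q - m)) := by
        rw [e2, h1 (q - m) (by omega) (by omega)]
        congr 2
      rw [e3] at e
      have := mul_mem e (ih (by omega))
      rwa [inv_mul_cancel_right] at this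
  have := all q le_rfl
  simpa [h0] using this

/-! ### Homotopy groups and obstruction classes -/

instance Zquot_comm (q : ℕ) [hc : Fact A.Cen] : CommGroup (A.Z q ⧸ (A.B q).subgroupOf (A.Z q)) :=
  { (inferInstance : Group (A.Z q ⧸ (A.B q).subgroupOf (A.Z q))) with
    mul_comm := by
      intro a b
      induction a using QuotientGroup.induction_on with
      | H a =>
        induction b using QuotientGroup.induction_on with
        | H b =>
          rw [← QuotientGroup.mk_mul, ← QuotientGroup.mk_mul, QuotientGroup.eq]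
          rw [Subgroup.mem_subgroupOf]
          have e := hc.out q (b.1⁻¹) (a.1⁻¹) (inv_mem a.2)
          simpa [mul_assoc] using e }

/-- The homotopy group, written additively. -/
abbrev Pi (q : ℕ) : Type := Additive (A.Z q ⧸ (A.B q).subgroupOf (A.Z q))

variable {A}

/-- The homotopy class. -/
def cl {q : ℕ} (z : A.S q) (hz : z ∈ A.Z q) : A.Pi q :=
  Additive.ofMul (QuotientGroup.mk ⟨z, hz⟩)

theorem cl_mul [Fact A.Cen] {q : ℕ} {z w : A.S q} (hz : z ∈ A.Z q) (hw : w ∈ A.Z q) :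
    cl (z * w) (mul_mem hz hw) = cl z hz + cl w hw := rfl

theorem cl_inv [Fact A.Cen] {q : ℕ} {z : A.S q} (hz : z ∈ A.Z q) :
    cl z⁻¹ (inv_mem hz) = - cl z hz := rfl

theorem cl_one [Fact A.Cen] {q : ℕ} : cl (1 : A.S q) (one_mem _) = 0 := rfl

theorem cl_eq_zero [Fact A.Cen] {q : ℕ} {z : A.S q} {hz : z ∈ A.Z q} :
    cl z hz = 0 ↔ z ∈ A.B q := by
  change Additive.ofMul _ = Additive.ofMul (1 : A.Z q ⧸ (A.B q).subgroupOf (A.Z q)) ↔ _
  rw [Additive.ofMul.injective.eq_iff, QuotientGroup.eq_one_iff, Subgroup.mem_subgroupOf]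

theorem cl_congr [Fact A.Cen] {q : ℕ} {z w : A.S q} {hz : z ∈ A.Z q} {hw : w ∈ A.Z q}
    (h : z = w) : cl z hz = cl w hw := by
  subst h
  rfl

theorem cl_eq [Fact A.Cen] {q : ℕ} {z w : A.S q} {hz : z ∈ A.Z q} {hw : w ∈ A.Z q}
    (h : z * w⁻¹ ∈ A.B q) : cl z hz = cl w hw := by
  have e : cl (z * w⁻¹) (mul_mem hz (inv_mem hw)) = 0 := cl_eq_zero.mpr h
  rw [cl_mul hz (inv_mem hw), cl_inv hw] at e
  exact add_neg_eq_zero.mp e

theorem cl_surj [Fact A.Cen] {q : ℕ} (c : A.Pi q) : ∃ (z : A.S q) (hz : z ∈ A.Z q),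
    cl z hz = c := by
  obtain ⟨⟨z, hz⟩, h⟩ := QuotientGroup.mk_surjective (Additive.toMul c)
  exact ⟨z, hz, h⟩

theorem horn_mem_Z {q : ℕ} {x : ℕ → A.S q} (hx : A.Compat q x) {t : A.S (q + 1)}
    (ht : ∀ i, 1 ≤ i → i ≤ q + 1 → A.d q i t = x i) : x 0 * (A.d q 0 t)⁻¹ ∈ A.Z q := by
  cases q with
  | zero => trivial
  | succ p =>
    rw [mem_Z_succ]
    intro i hi
    rw [map_mul, map_inv, ← A.d_d p 0 i t (by omega) hi, ht (i + 1) (by omega) (by omega),
      hx 0 i (by omega) hi, mul_inv_cancel]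

/-- The obstruction class of a compatible family of faces. -/
def obs {q : ℕ} (x : ℕ → A.S q) (hx : A.Compat q x) : A.Pi q :=
  cl (x 0 * (A.d q 0 (A.horn q x hx).choose)⁻¹) (horn_mem_Z hx (A.horn q x hx).choose_spec)

theorem obs_eq [Fact A.Cen] {q : ℕ} {x : ℕ → A.S q} (hx : A.Compat q x) {t : A.S (q + 1)}
    (ht : ∀ i, 1 ≤ i → i ≤ q + 1 → A.d q i t = x i) :
    obs x hx = cl (x 0 * (A.d q 0 t)⁻¹) (horn_mem_Z hx ht) := by
  set t₀ := (A.horn q x hx).choose with ht₀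
  have h₀ := (A.horn q x hx).choose_spec
  rw [← ht₀] at h₀
  have hb : A.d q 0 (t * t₀⁻¹) ∈ A.B q := by
    refine A.mem_B.mpr ⟨t * t₀⁻¹, fun i h1 h2 => ?_, rfl⟩
    rw [map_mul, map_inv, ht i h1 h2, h₀ i h1 h2, mul_inv_cancel]
  change cl (x 0 * (A.d q 0 t₀)⁻¹) _ = _
  have key : x 0 * (A.d q 0 t₀)⁻¹ * (x 0 * (A.d q 0 t)⁻¹)⁻¹ ∈ A.B q := by
    have := (A.B_normal q).conj_mem _ hb
    have h2 := (A.B_normal q).conj_mem _ (inv_mem (inv_mem hb)) (x 0 * (A.d q 0 t)⁻¹)
    rw [map_mul, map_inv] at h2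
    simpa [mul_assoc] using h2
  exact cl_eq key

theorem obs_eq_zero [Fact A.Cen] {q : ℕ} {x : ℕ → A.S q} (hx : A.Compat q x) :
    obs x hx = 0 ↔ ∃ t : A.S (q + 1), ∀ i, i ≤ q + 1 → A.d q i t = x i := by
  constructor
  · intro h
    obtain ⟨t, ht⟩ := A.horn q x hx
    rw [obs_eq hx ht, cl_eq_zero] at h
    obtain ⟨u, hu, hu'⟩ := A.mem_B.mp h
    refine ⟨u * t, fun i hi => ?_⟩
    rcases Nat.eq_zero_or_pos i with rfl | hi0
    · rw [map_mul, hu', inv_mul_cancel_right]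
    · rw [map_mul, hu i hi0 hi, ht i hi0 hi, one_mul]
  · rintro ⟨t, ht⟩
    rw [obs_eq hx (fun i _ hi => ht i hi), cl_eq_zero, ht 0 (by omega), mul_inv_cancel]
    exact one_mem _

theorem Compat.mul {q : ℕ} {x y : ℕ → A.S q} (hx : A.Compat q x) (hy : A.Compat q y) :
    A.Compat q (fun i => x i * y i) := by
  cases q with
  | zero => trivial
  | succ p =>
    intro i j hij hj
    rw [map_mul, map_mul, hx i j hij hj, hy i j hij hj]

theorem Compat.inv {q : ℕ} {x : ℕ → A.S q} (hx : A.Compat q x) :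
    A.Compat q (fun i => (x i)⁻¹) := by
  cases q with
  | zero => trivial
  | succ p =>
    intro i j hij hj
    rw [map_inv, map_inv, hx i j hij hj]

theorem Compat.pow {q : ℕ} {x : ℕ → A.S q} (hx : A.Compat q x) (n : ℕ) :
    A.Compat q (fun i => (x i) ^ n) := by
  cases q with
  | zero => trivial
  | succ p =>
    intro i j hij hj
    rw [map_pow, map_pow, hx i j hij hj]

theorem Compat.ofZ {q : ℕ} {x : ℕ → A.S q} (hx : ∀ i, x i ∈ A.Z q) : A.Compat q x := by
  cases q with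
  | zero => trivial
  | succ p =>
    intro i j hij hj
    rw [A.mem_Z_succ.mp (hx _) i (by omega), A.mem_Z_succ.mp (hx _) j (by omega)]

theorem obs_mul [Fact A.Cen] {q : ℕ} {x y : ℕ → A.S q} (hx : A.Compat q x)
    (hy : A.Compat q y) : obs (fun i => x i * y i) (hx.mul hy) = obs x hx + obs y hy := by
  obtain ⟨t, ht⟩ := A.horn q x hx
  obtain ⟨t', ht'⟩ := A.horn q y hy
  have h : ∀ i, 1 ≤ i → i ≤ q + 1 → A.d q i (t * t') = x i * y i := fun i h1 h2 => by
    rw [map_mul, ht i h1 h2, ht' i h1 h2]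
  rw [obs_eq hx ht, obs_eq hy ht', obs_eq (hx.mul hy) h,
    add_comm (cl (x 0 * (A.d q 0 t)⁻¹) _), ← cl_mul]
  apply cl_eq
  have e := (Fact.out : A.Cen) q (x 0) (y 0 * (A.d q 0 t')⁻¹) (horn_mem_Z hy ht')
  rw [map_mul]
  have e2 : x 0 * y 0 * (A.d q 0 t * A.d q 0 t')⁻¹ *
      (y 0 * (A.d q 0 t')⁻¹ * (x 0 * (A.d q 0 t)⁻¹))⁻¹ =
      x 0 * (y 0 * (A.d q 0 t')⁻¹) * (x 0)⁻¹ * (y 0 * (A.d q 0 t')⁻¹)⁻¹ := by group
  rw [e2]
  exact e

theorem obs_congr [Fact A.Cen] {q : ℕ} {x y : ℕ → A.S q} (hx : A.Compat q x)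
    (hy : A.Compat q y) (h : ∀ i, i ≤ q + 1 → x i = y i) : obs x hx = obs y hy := by
  obtain ⟨t, ht⟩ := A.horn q x hx
  rw [obs_eq hx ht, obs_eq hy (fun i h1 h2 => (ht i h1 h2).trans (h i h2))]
  exact cl_congr (by rw [h 0 (by omega)])

theorem Compat.one {q : ℕ} : A.Compat q (fun _ => 1) := Compat.ofZ (fun _ => one_mem _)

theorem obs_one [Fact A.Cen] {q : ℕ} : obs (fun _ => (1 : A.S q)) Compat.one = 0 :=
  (obs_eq_zero _).mpr ⟨1, fun _ _ => map_one _⟩

theorem obs_inv [Fact A.Cen] {q : ℕ} {x : ℕ → A.S q} (hx : A.Compat q x) :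
    obs (fun i => (x i)⁻¹) hx.inv = - obs x hx := by
  have e := obs_mul hx hx.inv
  rw [obs_congr (hx.mul hx.inv) Compat.one (fun i _ => mul_inv_cancel _), obs_one] at e
  exact (neg_eq_of_add_eq_zero_right e.symm).symm

theorem obs_pow [Fact A.Cen] {q : ℕ} {x : ℕ → A.S q} (hx : A.Compat q x) (n : ℕ) :
    obs (fun i => (x i) ^ n) (hx.pow n) = n • obs x hx := by
  induction n with
  | zero =>
    rw [zero_smul, ← obs_one]
    exact obs_congr _ _ (fun i _ => pow_zero _)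
  | succ n ih =>
    rw [add_smul, one_smul, ← ih, ← obs_mul]
    exact obs_congr _ _ (fun i _ => pow_succ _ _)

/-- The obstruction class of a family of elements with trivial faces. -/
theorem obs_Z [Fact A.Cen] {q : ℕ} : ∀ (n : ℕ), n ≤ q + 1 → ∀ (z : ℕ → A.S q)
    (hz : ∀ i, z i ∈ A.Z q), (∀ i, n < i → z i = 1) →
    obs z (Compat.ofZ hz) = ∑ i ∈ Finset.range (n + 1), (-1 : ℤ) ^ i • cl (z i) (hz i) := by
  intro n
  induction n with
  | zero =>
    intro _ z hz h
    rw [obs_eq (t := 1) (Compat.ofZ hz) (fun i h1 _ => by rw [map_one, h i (by omega)])]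
    rw [Finset.sum_range_one, pow_zero, one_smul]
    exact cl_congr (by rw [map_one, inv_one, mul_one])
  | succ n ih =>
    intro hn z hz h
    classical
    set w : ℕ → A.S q := fun i => if i = n ∨ i = n + 1 then (z (n + 1))⁻¹ else 1 with hw
    have hwZ : ∀ i, w i ∈ A.Z q := by
      intro i
      simp only [hw]
      split_ifs
      · exact inv_mem (hz _)
      · exact one_mem _
    have hw0 : obs w (Compat.ofZ hwZ) = 0 := by
      rw [obs_eq_zero]
      refine ⟨A.s q n (z (n + 1))⁻¹, fun i hi => ?_⟩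
      simp only [hw]
      rcases eq_or_ne i n with rfl | h1
      · rw [A.d_s_eq q i _ (by omega)]
        simp
      · rcases eq_or_ne i (n + 1) with rfl | h2
        · rw [A.d_s_succ q n _ (by omega)]
          simp
        · rw [A.s_face_one (inv_mem (hz _)) n (by omega) i hi h1 h2]
          simp [h1, h2]
    have hy : ∀ i, z i * w i ∈ A.Z q := fun i => mul_mem (hz i) (hwZ i)
    have e1 : obs (fun i => z i * w i) (Compat.ofZ hy) = obs z (Compat.ofZ hz) := by
      have := obs_mul (Compat.ofZ hz) (Compat.ofZ hwZ)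
      rw [hw0, add_zero] at this
      exact this
    rw [← e1, ih (by omega) (fun i => z i * w i) hy ?_]
    · rw [Finset.sum_range_succ _ (n + 1), Finset.sum_range_succ _ n, Finset.sum_range_succ _ n]
      have e2 : ∀ i ∈ Finset.range n, (-1 : ℤ) ^ i • cl (z i * w i) (hy i) =
          (-1 : ℤ) ^ i • cl (z i) (hz i) := by
        intro i hi
        have hi' : i < n := Finset.mem_range.mp hi
        congr 1
        apply cl_congr
        simp only [hw]
        rw [if_neg (by omega), mul_one]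
      rw [Finset.sum_congr rfl e2]
      have e3 : cl (z n * w n) (hy n) = cl (z n) (hz n) - cl (z (n + 1)) (hz (n + 1)) := by
        rw [sub_eq_add_neg, ← cl_inv, ← cl_mul]
        apply cl_congr
        simp [hw]
      rw [e3, pow_succ, smul_sub, mul_neg_one, neg_smul, add_assoc, ← sub_eq_add_neg]
    · intro i hi
      simp only [hw]
      rcases eq_or_ne i (n + 1) with rfl | h1
      · simp
      · rw [h i (by omega), if_neg (by omega), mul_one]

theorem obs_Z' [Fact A.Cen] {q : ℕ} (z : ℕ → A.S q) (hz : ∀ i, z i ∈ A.Z q) :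
    obs z (Compat.ofZ hz) = ∑ i ∈ Finset.range (q + 2), (-1 : ℤ) ^ i • cl (z i) (hz i) := by
  classical
  set z' : ℕ → A.S q := fun i => if i ≤ q + 1 then z i else 1 with hz'
  have h1 : ∀ i, z' i ∈ A.Z q := by
    intro i
    simp only [hz']
    split_ifs
    · exact hz i
    · exact one_mem _
  have h2 := obs_Z (q + 1) le_rfl z' h1 (fun i hi => by simp only [hz']; rw [if_neg (by omega)])
  rw [obs_congr (Compat.ofZ hz) (Compat.ofZ h1) (fun i hi => by simp only [hz']; rw [if_pos hi]),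
    h2]
  apply Finset.sum_congr rfl
  intro i hi
  have hi' : i < q + 2 := Finset.mem_range.mp hi
  congr 1
  apply cl_congr
  simp only [hz']
  rw [if_pos (by omega)]

/-- The obstruction classes form a cocycle. -/
theorem obs_cocycle [Fact A.Cen] {q : ℕ} (x : ℕ → ℕ → A.S q) (hx : ∀ j, A.Compat q (x j))
    (h : ∀ i j, i ≤ j → j ≤ q + 1 → x (j + 1) i = x i j) :
    ∑ j ∈ Finset.range (q + 3), (-1 : ℤ) ^ j • obs (x j) (hx j) = 0 := by
  choose t ht using fun j => A.horn q (x j) (hx j)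
  obtain ⟨T, hT⟩ := A.horn_succ q t (fun i j h1 h2 h3 => by
    rw [ht (j + 1) i h1 (by omega), ht i j (by omega) (by omega), h i j h2 h3])
  have hz : ∀ j, (x (j + 1) 0 * (A.d q 0 (t (j + 1)))⁻¹) ∈ A.Z q := fun j =>
    horn_mem_Z (hx (j + 1)) (ht (j + 1))
  have hfill : obs (fun j => (x (j + 1) 0 * (A.d q 0 (t (j + 1)))⁻¹)⁻¹ * x 0 j)
      ((Compat.ofZ (fun j => inv_mem (hz j))).mul (hx 0)) = 0 := by
    rw [obs_eq_zero]
    refine ⟨A.d (q + 1) 0 T, fun j hj => ?_⟩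
    rw [← A.d_d q 0 j T (by omega) hj, hT (j + 1) (by omega) (by omega), h 0 j (by omega) hj]
    simp [mul_assoc]
  rw [obs_mul (Compat.ofZ (fun j => inv_mem (hz j))) (hx 0),
    obs_Z' _ (fun j => inv_mem (hz j))] at hfill
  rw [Finset.sum_range_succ', pow_zero, one_smul]
  rw [← hfill]
  congr 1
  apply Finset.sum_congr rfl
  intro j _
  rw [obs_eq (hx (j + 1)) (ht (j + 1)), cl_inv (hz j), pow_succ, mul_neg_one, neg_smul, smul_neg]

end SGr

end

end Pool.Agent.Lib.MP_904b2a_gt.H68
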